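import Pool.Agent.W345.GK.Gau

/-!
Part DL of project GK (problem MP_a90b0f_nt): logarithmic derivatives of the torsion points.
-/

set_option autoImplicit false

open Polynomial Finset

namespace Pool.Agent.W304.GK.DL

open Pool.Agent.W345.GK

section krsec
variable {k F : Type} [Field k] [Field F] [Algebra k F]

/-- extension of scalars for Laurent series -/
noncomputable def mapH (k F : Type) [Field k] [Field F] [Algebra k F] : LS k →+* LS F where
  toFun x := HahnSeries.map x (algebraMap k F)
  map_one' := HahnSeries.map_one (algebraMap k F).toMonoidWithZeroHom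
  map_mul' _ _ := HahnSeries.map_mul ((algebraMap k F : k →+* F) : k →ₙ+* F)
  map_zero' := HahnSeries.map_zero ((algebraMap k F : k →+* F) : ZeroHom k F)
  map_add' _ _ := HahnSeries.map_add ((algebraMap k F : k →+* F) : k →+ F)

theorem mapH_coeff (x : LS k) (j : ℤ) : (mapH k F x).coeff j = algebraMap k F (x.coeff j) := rfl

theorem KR_iff (f : LS F) : KR k f ↔ f ∈ (mapH k F).fieldRange := by
  constructor
  · intro h
    choose c hc using h
    have hs : Function.support c ⊆ f.support := by
      intro j hj hf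
      apply hj
      have h1 : f.coeff j = 0 := hf
      rw [← hc j] at h1
      exact (map_eq_zero (algebraMap k F)).mp h1
    refine ⟨⟨c, f.isPWO_support.mono hs⟩, ?_⟩
    ext j
    rw [mapH_coeff]
    exact hc j
  · rintro ⟨g, rfl⟩ j
    exact ⟨g.coeff j, rfl⟩

theorem coeff_Dx (q : ℕ) (f : LS F) (j : ℤ) :
    (Dx q f).coeff j = -(((j - q + 1 : ℤ) : F) * f.coeff (j - q + 1)) := by
  unfold Dx
  rw [HahnSeries.coeff_neg, HahnSeries.coeff_single_mul, one_mul, LaurentSeries.derivative_apply,
    LaurentSeries.hasseDeriv_coeff]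
  have h : j - (q : ℤ) + ((1 : ℕ) : ℤ) = j - q + 1 := by push_cast; ring
  rw [h, Ring.choose_one_right, zsmul_eq_mul]

theorem KR_Dx (q : ℕ) (f : LS F) (h : KR k f) : KR k (Dx q f) := by
  intro j
  rw [coeff_Dx]
  obtain ⟨c, hc⟩ := h (j - q + 1)
  refine ⟨-(((j - q + 1 : ℤ) : k) * c), ?_⟩
  rw [map_neg, map_mul, hc, map_intCast]

theorem KR_dl (q : ℕ) (f : LS F) (h : KR k f) : KR k (dl q f) := by
  unfold dl
  have h1 := (KR_iff f).mp h
  have h2 := (KR_iff (Dx q f)).mp (KR_Dx q f h)
  exact (KR_iff _).mpr (div_mem h2 h1)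

end krsec

theorem dl_ok : S_I1 → S_I2 → S_C1 → S_DL := by
  intro h1 h2 hC k F _ _ _ _ P Lam hP hirr hL a ha
  obtain ⟨i1, -, i3, i4, i5, -⟩ := h1 k F
  obtain ⟨c1, c2, -, c4, c5⟩ := hC k
  set q := Fintype.card k with hq
  have hLa : Lam a ≠ 0 := fun h => ha ((hL.zero_iff a).mp h)
  have hinj : Function.Injective (iA : k[X] →+* LS F) := by
    intro a b hab
    have : iF q (mapRingHom (algebraMap k F) a) = iF q (mapRingHom (algebraMap k F) b) := hab
    exact Polynomial.map_injective _ (algebraMap k F).injective (i1 this)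
  have hP' : (iA P : LS F) ≠ 0 := by
    intro h
    apply hP.ne_zero
    apply hinj
    rw [h, map_zero]
  have hq0 : ((q : ℕ) : F) = 0 := by
    have h := FiniteField.cast_card_eq_zero k
    have h' := congrArg (algebraMap k F) h
    rw [map_natCast, map_zero] at h'
    exact h'
  have hq1 : ((q : ℕ) : LS F) = 0 := by
    have : ((q : ℕ) : LS F) = HahnSeries.C ((q : ℕ) : F) := by
      rw [map_natCast]
    rw [this, hq0, map_zero]
  -- derivation facts
  have D0 : Dx q (0 : LS F) = 0 := by
    have := i3 0 0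
    simpa using this
  have D1 : Dx q (1 : LS F) = 0 := by
    have := i4 1 1
    simpa using this
  have Dsum : ∀ (s : Finset ℕ) (f : ℕ → LS F), Dx q (∑ i ∈ s, f i) = ∑ i ∈ s, Dx q (f i) := by
    intro s f
    induction s using Finset.cons_induction with
    | empty => simpa using D0
    | cons i s hi ih => rw [Finset.sum_cons, Finset.sum_cons, i3, ih]
  have Dpow : ∀ (f : LS F) (n : ℕ), Dx q (f ^ (n + 1)) = (n + 1 : ℕ) * (f ^ n * Dx q f) := by
    intro f n
    induction n with
    | zero => simp
    | succ n ih =>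
      rw [pow_succ, i4, ih, pow_succ]
      push_cast
      ring
  have DpowZ : ∀ (f : LS F) (i : ℕ), Dx q (f ^ q ^ (i + 1)) = 0 := by
    intro f i
    have hpos : 0 < q ^ (i + 1) := pow_pos (Fintype.card_pos) _
    obtain ⟨n, hn⟩ := Nat.exists_eq_succ_of_ne_zero hpos.ne'
    have h := Dpow f n
    have hn' : q ^ (i + 1) = n + 1 := hn
    rw [hn', h, ← hn']
    push_cast
    rw [hq1, pow_succ, mul_zero, zero_mul]
  have DiA : ∀ b : k[X], Dx q (iA b : LS F) = iA (derivative b) := by
    intro b
    have h := i5 (b.map (algebraMap k F))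
    rw [Polynomial.derivative_map] at h
    exact h
  -- the relation
  have hrel : Lam (P * a) = ∑ i ∈ range (P.natDegree + 1), (iA (br P i) : LS F) *
      (Lam a) ^ (q ^ i) := by
    letI : Algebra k[X] (LS F) := (iA : k[X] →+* LS F).toAlgebra
    have h := c5 (LS F) Lam hL.add hL.smul hL.mulX P a
    rw [h, c1 P, map_sum]
    apply Finset.sum_congr rfl
    intro i _
    rw [map_mul, map_pow, aeval_C, aeval_X]
    rfl
  have hz : Lam (P * a) = 0 := (hL.zero_iff _).mpr (dvd_mul_right P a)
  rw [hz] at hrel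
  have hD := congrArg (Dx q) hrel
  rw [D0, Dsum, Finset.sum_range_succ', Finset.sum_congr rfl (g := fun i =>
    (Lam a) ^ (q ^ (i + 1)) * (iA (derivative (br P (i + 1))) : LS F))
    (fun i _ => by rw [i4, DpowZ, DiA, mul_zero, zero_add])] at hD
  rw [i4, c2, DiA, pow_zero, pow_one] at hD
  have hdeg : P.natDegree ≠ 0 := by
    intro h
    have : P = 1 := hP.natDegree_eq_zero.mp h
    rw [this] at hirr
    exact not_irreducible_one hirr
  obtain ⟨d, hd⟩ := Nat.exists_eq_succ_of_ne_zero hdeg
  have hd' : P.natDegree = d + 1 := hd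
  have hsum : ∑ i ∈ range P.natDegree, (Lam a) ^ (q ^ (i + 1)) *
      (iA (derivative (br P (i + 1))) : LS F) + Lam a * iA (derivative P) =
      ∑ i ∈ range P.natDegree, (iA (derivative (br P i)) : LS F) * (Lam a) ^ (q ^ i) := by
    have e1 : ∑ i ∈ range (P.natDegree + 1), (Lam a) ^ (q ^ i) *
      (iA (derivative (br P i)) : LS F) = ∑ i ∈ range P.natDegree, (Lam a) ^ (q ^ (i + 1)) *
      (iA (derivative (br P (i + 1))) : LS F) + Lam a * iA (derivative P) := by
      rw [Finset.sum_range_succ', c2, pow_zero, pow_one]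
    rw [← e1, Finset.sum_range_succ, c4 P hP, derivative_one, map_zero, mul_zero, add_zero]
    exact Finset.sum_congr rfl fun i _ => mul_comm _ _
  constructor
  · letI := algLS F q
    have hxi : aeval (Lam a) (xi P : (F[X])[X]) * Lam a =
        ∑ i ∈ range P.natDegree, (iA (derivative (br P i)) : LS F) * (Lam a) ^ (q ^ i) := by
      unfold xi
      rw [map_sum, Finset.sum_mul]
      apply Finset.sum_congr rfl
      intro i _
      rw [map_mul, map_pow, aeval_C, aeval_X, mul_assoc, ← pow_succ,
        Nat.sub_add_cancel (Nat.one_le_pow _ _ Fintype.card_pos)]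
      rfl
    unfold dl
    rw [div_eq_div_iff hLa hP']
    have : Dx q (Lam a) * iA P = -(aeval (Lam a) (xi P : (F[X])[X]) * Lam a) := by
      rw [hxi, ← hsum]
      linear_combination (-1 : LS F) * hD
    rw [this]
    ring
  · intro j
    have h := h2 k F (Lam a) hLa j
    rw [← h]
    obtain ⟨c, hc⟩ := KR_dl (k := k) q (Lam a) (hL.rat a) j
    rw [← hc, ← map_pow, FiniteField.pow_card]

end Pool.Agent.W304.GK.DL
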