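import Pool.Agent.W345.GK.Cl2

/-!
Part TOR of project GK (problem MP_a90b0f_nt): a class of order `p`.
-/

set_option autoImplicit false

open Polynomial Finset
open scoped TensorProduct nonZeroDivisors

namespace Pool.Agent.W304.GK.TOR

open Pool.Agent.W345.GK

section exact
variable (k F Fc : Type) [Field k] [Field F] [Algebra k F] [Finite F] [Field Fc] [Algebra k Fc]
  (p : ℕ) [Fact p.Prime] [CharP F p]

theorem zsm (V : Type) [AddCommGroup V] [Module (ZMod p) V] (a : ZMod p) (v : V) :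
    a • v = a.val • v := by
  conv_lhs => rw [← ZMod.natCast_zmod_val a]
  rw [Nat.cast_smul_eq_nsmul]

theorem exact_lemma (H V : Type) [CommMonoid H] [AddCommGroup V] (hV : ∀ v : V, p • v = 0)
    (cl : H →* Multiplicative V) (dg : H →* Multiplicative Fc) {L : Type} [Fintype L]
    (s : L → F) (g : L → H)
    (hz : ∑ l, s l ⊗ₜ[ℤ] (Multiplicative.toAdd (cl (g l))) = 0) :
    ∃ (m : ℕ) (e : Fin m → F) (f' : Fin m → H), (∀ j, cl (f' j) = 1) ∧
      ∑ l, s l ⊗ₜ[k] (Multiplicative.toAdd (dg (g l))) =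
        ∑ j, e j ⊗ₜ[k] (Multiplicative.toAdd (dg (f' j))) := by
  letI : Algebra (ZMod p) F := ZMod.algebra F p
  letI : Module (ZMod p) V := AddCommGroup.zmodModule hV
  let B := Module.finBasis (ZMod p) F
  let n : L → Fin (Module.finrank (ZMod p) F) → ℕ := fun l j => (B.repr (s l) j).val
  refine ⟨_, B, fun j => ∏ l, g l ^ n l j, ?_, ?_⟩
  · intro j
    let φ : F ⊗[ℤ] V →ₗ[ℤ] V := TensorProduct.lift (LinearMap.mk₂ ℤ
      (fun (x : F) (v : V) => (B.repr x j) • v)
      (fun a b v => by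
        change B.repr (a + b) j • v = _
        rw [map_add, Finsupp.add_apply, add_smul])
      (fun c a v => by
        change B.repr (c • a) j • v = c • (B.repr a j • v)
        rw [map_zsmul, Finsupp.smul_apply, smul_assoc])
      (fun a v w => by
        change B.repr a j • (v + w) = _
        rw [smul_add])
      (fun c a v => by
        change B.repr a j • (c • v) = c • (B.repr a j • v)
        rw [smul_comm]))
    have h1 := congrArg φ hz
    rw [map_zero, map_sum] at h1
    have h2 : ∑ l, n l j • (Multiplicative.toAdd (cl (g l))) = 0 := by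
      rw [← h1]
      apply Finset.sum_congr rfl
      intro l _
      rw [← zsm p V]
      rfl
    rw [map_prod]
    apply Multiplicative.toAdd.injective
    rw [toAdd_prod, toAdd_one, ← h2]
    apply Finset.sum_congr rfl
    intro l _
    rw [map_pow, toAdd_pow]
  · have h3 : ∀ l, s l = ∑ j, n l j • B j := by
      intro l
      conv_lhs => rw [← B.sum_repr (s l)]
      exact Finset.sum_congr rfl fun j _ => zsm p F _ _
    have h4 : ∀ l, s l ⊗ₜ[k] (Multiplicative.toAdd (dg (g l))) =
        ∑ j, B j ⊗ₜ[k] (n l j • (Multiplicative.toAdd (dg (g l)))) := by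
      intro l
      conv_lhs => rw [h3 l]
      rw [TensorProduct.sum_tmul]
      apply Finset.sum_congr rfl
      intro j _
      rw [TensorProduct.tmul_smul, TensorProduct.smul_tmul']
    rw [Finset.sum_congr rfl fun l _ => h4 l, Finset.sum_comm]
    apply Finset.sum_congr rfl
    intro j _
    rw [← TensorProduct.tmul_sum, map_prod, toAdd_prod]
    congr 1
    apply Finset.sum_congr rfl
    intro l _
    rw [map_pow, toAdd_pow]

end exact

section op
variable {k Fc : Type} [Field k] [Field Fc] [Algebra k[X] Fc] {P : k[X]}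

theorem op_zero : OP P (0 : Fc) := ⟨0, by rw [mul_zero]; exact isIntegral_zero⟩

theorem op_add {x y : Fc} (hx : OP P x) (hy : OP P y) : OP P (x + y) := by
  obtain ⟨n, hn⟩ := hx
  obtain ⟨m, hm⟩ := hy
  refine ⟨n + m, ?_⟩
  have hP : IsIntegral k[X] (algebraMap k[X] Fc P) := isIntegral_algebraMap
  have : (algebraMap k[X] Fc P) ^ (n + m) * (x + y) =
      (algebraMap k[X] Fc P) ^ m * ((algebraMap k[X] Fc P) ^ n * x) +
      (algebraMap k[X] Fc P) ^ n * ((algebraMap k[X] Fc P) ^ m * y) := by ring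
  rw [this]
  exact ((hP.pow m).mul hn).add ((hP.pow n).mul hm)

theorem op_gal {x : Fc} (σ : Fc ≃ₐ[k[X]] Fc) (hx : OP P x) : OP P (σ x) := by
  obtain ⟨n, hn⟩ := hx
  refine ⟨n, ?_⟩
  have : (algebraMap k[X] Fc P) ^ n * σ x = (σ : Fc →ₐ[k[X]] Fc) ((algebraMap k[X] Fc P) ^ n * x) := by
    simp
  rw [this]
  exact hn.map _

end op

section dlog
variable {k F Fc : Type} [Field k] [Fintype k] [Field F] [Algebra k F] [Field Fc]
  [Algebra k[X] Fc] {P : k[X]} {c : CycD k Fc P} {ι : Fc →+* LS F} {D : Fc → Fc}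

theorem der_one (hD : IsDer k F Fc c ι D) : D 1 = 0 := by
  have := hD.mul 1 1
  simpa using this

theorem dlog_mul (hD : IsDer k F Fc c ι D) (f g : Fc) (hf : f ≠ 0) (hg : g ≠ 0) :
    D (f * g) / (f * g) = D f / f + D g / g := by
  rw [hD.mul]
  field_simp
  ring

/-- the logarithmic derivative as a homomorphism -/
noncomputable def dlog (hD : IsDer k F Fc c ι D) : Fcˣ →* Multiplicative Fc where
  toFun f := Multiplicative.ofAdd (D (f : Fc) / f)
  map_one' := by
    rw [Units.val_one, der_one hD, zero_div]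
    rfl
  map_mul' f g := by
    rw [Units.val_mul, dlog_mul hD _ _ f.ne_zero g.ne_zero]
    rfl

theorem dlog_apply (hD : IsDer k F Fc c ι D) (f : Fcˣ) :
    Multiplicative.toAdd (dlog hD f) = D (f : Fc) / f := rfl

/-- elements whose logarithmic derivative is integral outside `P` -/
noncomputable def HH (hD : IsDer k F Fc c ι D) : Submonoid Fcˣ where
  carrier := {f | OP P (D (f : Fc) / f)}
  one_mem' := by
    change OP P (D ((1 : Fcˣ) : Fc) / _)
    rw [Units.val_one, der_one hD, zero_div]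
    exact op_zero
  mul_mem' := by
    intro f g hf hg
    change OP P (D ((f * g : Fcˣ) : Fc) / _)
    rw [Units.val_mul, dlog_mul hD _ _ f.ne_zero g.ne_zero]
    exact op_add hf hg

end dlog

section polsec
variable {k : Type} [Field k] [Fintype k] {N : ℕ}

theorem coeff_pol (b : Fin N → k) (j : ℕ) :
    (pol b).coeff j = if h : j < N then b ⟨j, h⟩ else 0 := by
  unfold pol
  rw [Polynomial.finsetSum_coeff]
  simp only [coeff_C_mul_X_pow]
  split_ifs with h
  · rw [Finset.sum_eq_single ⟨j, h⟩]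
    · simp
    · intro i _ hi
      rw [if_neg]
      intro h'
      apply hi
      ext
      exact h'.symm
    · intro h'
      exact absurd (Finset.mem_univ _) h'
  · apply Finset.sum_eq_zero
    intro i _
    rw [if_neg]
    intro h'
    exact h (h' ▸ i.2)

theorem pol_inj : Function.Injective (pol : (Fin N → k) → k[X]) := by
  intro b b' h
  funext i
  have := congrArg (fun f => f.coeff (i : ℕ)) h
  simpa [coeff_pol] using this

theorem pol_zero : pol (0 : Fin N → k) = 0 := by
  unfold pol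
  simp

theorem degree_pol (b : Fin N → k) : (pol b).degree < N := by
  rw [Polynomial.degree_lt_iff_coeff_zero]
  intro m hm
  rw [coeff_pol, dif_neg (by omega)]

theorem pol_of (f : k[X]) (hf : f.degree < N) : pol (fun i : Fin N => f.coeff i) = f := by
  ext j
  rw [coeff_pol]
  split_ifs with h
  · rfl
  · rw [Polynomial.degree_lt_iff_coeff_zero] at hf
    exact (hf j (by omega)).symm

theorem dvd_pol {P : k[X]} (hP : P.Monic) (b : Fin P.natDegree → k) : P ∣ pol b ↔ b = 0 := by
  constructor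
  · intro h
    by_contra hb
    have h0 : pol b ≠ 0 := by
      intro h0
      apply hb
      apply pol_inj
      rw [h0, pol_zero]
    have := Polynomial.degree_le_of_dvd h h0
    rw [Polynomial.degree_eq_natDegree hP.ne_zero] at this
    exact absurd (degree_pol b) (not_lt.mpr this)
  · rintro rfl
    rw [pol_zero]
    exact dvd_zero P

/-- multiplication by `a` modulo `P` -/
noncomputable def mm (P a : k[X]) (b : Fin P.natDegree → k) : Fin P.natDegree → k :=
  fun i => ((pol b * a) %ₘ P).coeff i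

theorem pol_mm {P : k[X]} (hP : P.Monic) (a : k[X]) (b : Fin P.natDegree → k) :
    pol (mm P a b) = (pol b * a) %ₘ P := by
  apply pol_of
  rw [← Polynomial.degree_eq_natDegree hP.ne_zero]
  exact Polynomial.degree_modByMonic_lt _ hP

theorem mm_dvd {P : k[X]} (hP : P.Monic) (a : k[X]) (b : Fin P.natDegree → k) :
    P ∣ pol b * a - pol (mm P a b) := by
  rw [pol_mm hP]
  refine ⟨(pol b * a) /ₘ P, ?_⟩
  have := Polynomial.modByMonic_add_div (pol b * a) P
  linear_combination -this

theorem mm_inj {P : k[X]} (hP : P.Monic) (hirr : Irreducible P) {a : k[X]} (ha : ¬ P ∣ a) :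
    Function.Injective (mm P a) := by
  intro b b' h
  have h1 := mm_dvd hP a b
  have h2 := mm_dvd hP a b'
  rw [h] at h1
  have h3 : P ∣ (pol b - pol b') * a := by
    have := dvd_sub h1 h2
    have e : pol b * a - pol (mm P a b') - (pol b' * a - pol (mm P a b')) =
      (pol b - pol b') * a := by ring
    rwa [e] at this
  have h4 : P ∣ pol b - pol b' := by
    rcases hirr.prime.dvd_or_dvd h3 with h | h
    · exact h
    · exact absurd h ha
  have h5 : pol b - pol b' = pol (b - b') := by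
    ext j
    rw [Polynomial.coeff_sub, coeff_pol, coeff_pol, coeff_pol]
    split_ifs with h
    · rfl
    · simp
  rw [h5, dvd_pol hP] at h4
  exact sub_eq_zero.mp h4

/-- the permutation of the residues -/
noncomputable def mmE {P : k[X]} (hP : P.Monic) (hirr : Irreducible P) {a : k[X]} (ha : ¬ P ∣ a) :
    (Fin P.natDegree → k) ≃ (Fin P.natDegree → k) :=
  Equiv.ofBijective (mm P a) (Finite.injective_iff_bijective.mp (mm_inj hP hirr ha))

end polsec

section projsec
variable {k F Fc : Type} [Field k] [Fintype k] [Field F] [Algebra k F] [Field Fc]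
    [Algebra k Fc] [Algebra k[X] Fc] [IsScalarTower k k[X] Fc] {P : k[X]}

/-- the projector as a linear map -/
noncomputable def projL (c : CycD k Fc P) (θ : F) (κ : ℕ) : F ⊗[k] Fc →ₗ[F] F ⊗[k] Fc :=
  (-1 : F) • ∑ a : Fin P.natDegree → k,
    rho P.natDegree θ κ (pol a) • (sgT (F := F) c (pol a)).toLinearMap

theorem proj_eq (c : CycD k Fc P) (θ : F) (κ : ℕ) (z : F ⊗[k] Fc) :
    proj c θ κ z = projL c θ κ z := by
  unfold proj projL
  rw [LinearMap.smul_apply, LinearMap.sum_apply, neg_one_smul]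
  rfl

theorem sgT_tmul (c : CycD k Fc P) (a : k[X]) (u : F) (y : Fc) :
    sgT c a (u ⊗ₜ[k] y) = u ⊗ₜ[k] (c.sg a y) := by
  unfold sgT
  rw [Algebra.TensorProduct.map_tmul]
  rfl

end projsec

/-- the key alternative -/
theorem key (k F Fc : Type) [Field k] [Fintype k] [Field F] [Finite F] [Algebra k F]
    [Field Fc] [Algebra k Fc] [Algebra k[X] Fc] [IsScalarTower k k[X] Fc]
    (p : ℕ) [Fact p.Prime] [CharP k p] (P : k[X]) (θ : F) (κ : ℕ)
    (c : CycD k Fc P) (ι : Fc →+* LS F) (D : Fc → Fc) (hP : P.Monic) (hirr : Irreducible P)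
    (hθ : aeval θ P = 0) (hD : IsDer k F Fc c ι D)
    (r0 : rho P.natDegree θ κ (0 : k[X]) = 0)
    (r6 : ∀ a : k[X], ¬ P ∣ a → rho P.natDegree θ κ a * (aeval θ a) ^ κ = 1)
    (cl : Fcˣ → tors p (Cl k Fc))
    (cl1 : ∀ f g : Fcˣ, OP P (D (f : Fc) / f) → OP P (D (g : Fc) / g) →
      cl (f * g) = cl f + cl g)
    (cl2 : ∀ f : Fcˣ, OP P (D (f : Fc) / f) → cl f = 0 → ∃ (g u : Fcˣ) (r : ℤ),
      IsIntegral k[X] (u : Fc) ∧ IsIntegral k[X] ((u : Fc)⁻¹) ∧
        (f : Fc) = (g : Fc) ^ p * (c.lam 1) ^ r * u)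
    (cl3 : ∀ (a : k[X]) (f : Fcˣ), ¬ P ∣ a → OP P (D (f : Fc) / f) →
      cl (Units.map ((c.sg a : Fc ≃ₐ[k[X]] Fc) : Fc →* Fc) f) =
        torsMap p (clMap (c.sg a)) (cl f))
    (w : F ⊗[k] Fc)
    (hw : ∀ f : Fc, (f = c.lam 1 ∨ (f ≠ 0 ∧ IsIntegral k[X] f ∧ IsIntegral k[X] f⁻¹)) →
      ∃ s : F, proj c θ κ (1 ⊗ₜ[k] (D f / f)) = s • w)
    (Eh : F ⊗[k] Fc) (heig : ∀ a : k[X], ¬ P ∣ a → sgT c a Eh = (aeval θ a) ^ κ • Eh)
    (n : ℕ) (u : Fin n → F) (f : Fin n → Fc) (hf : ∀ i, f i ≠ 0 ∧ OP P (D (f i) / f i))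
    (hsum : Eh = ∑ i, u i ⊗ₜ[k] (D (f i) / f i)) :
    (∃ x : F ⊗[ℤ] (tors p (Cl k Fc)), x ≠ 0 ∧ ∀ a : k[X], ¬ P ∣ a →
      LinearMap.lTensor F (torsMap p (clMap (c.sg a))).toIntLinearMap x = (aeval θ a) ^ κ • x) ∨
    ∃ t : F, Eh = t • w := by
  classical
  haveI : CharP F p := charP_of_injective_algebraMap (algebraMap k F).injective p
  have hpk : ((p : ℕ) : k) = 0 := CharP.cast_eq_zero k p
  have hpF : ((p : ℕ) : Fc) = 0 := by
    have h := congrArg (algebraMap k Fc) hpk
    rwa [map_natCast, map_zero] at h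
  have hq0 : ((Fintype.card k : ℕ) : F) = 0 := by
    have h := congrArg (algebraMap k F) (FiniteField.cast_card_eq_zero k)
    rwa [map_natCast, map_zero] at h
  have hV : ∀ v : tors p (Cl k Fc), p • v = 0 := fun v => Subtype.ext v.2
  have hd0 : P.natDegree ≠ 0 := by
    intro h
    have : P = 1 := hP.natDegree_eq_zero.mp h
    rw [this] at hirr
    exact not_irreducible_one hirr
  have hlam : c.lam 1 ≠ 0 := by
    intro h
    have := (c.zero_iff 1).mp h
    exact hirr.not_isUnit (isUnit_of_dvd_one this)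
  -- the homomorphism to the class group
  have cl10 : cl 1 = 0 := by
    have h1 : OP P (D ((1 : Fcˣ) : Fc) / ((1 : Fcˣ) : Fc)) := (HH hD).one_mem
    have := cl1 1 1 h1 h1
    rw [mul_one] at this
    simpa using this
  let clH : HH hD →* Multiplicative (tors p (Cl k Fc)) :=
    { toFun := fun f => Multiplicative.ofAdd (cl f.1)
      map_one' := by
        change Multiplicative.ofAdd (cl 1) = 1
        rw [cl10]
        rfl
      map_mul' := fun f g => by
        change Multiplicative.ofAdd (cl (f.1 * g.1)) = _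
        rw [cl1 _ _ f.2 g.2]
        rfl }
  let fu : Fin n → Fcˣ := fun i => Units.mk0 (f i) (hf i).1
  have hgal : ∀ (a : k[X]) (v : Fcˣ), ¬ P ∣ a → OP P (D (v : Fc) / v) →
      D ((Units.map ((c.sg a : Fc ≃ₐ[k[X]] Fc) : Fc →* Fc) v : Fcˣ) : Fc) /
        ((Units.map ((c.sg a : Fc ≃ₐ[k[X]] Fc) : Fc →* Fc) v : Fcˣ) : Fc) =
        c.sg a (D (v : Fc) / v) ∧
      Units.map ((c.sg a : Fc ≃ₐ[k[X]] Fc) : Fc →* Fc) v ∈ HH hD := by
    intro a v ha hv
    have e : D ((Units.map ((c.sg a : Fc ≃ₐ[k[X]] Fc) : Fc →* Fc) v : Fcˣ) : Fc) /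
        ((Units.map ((c.sg a : Fc ≃ₐ[k[X]] Fc) : Fc →* Fc) v : Fcˣ) : Fc) =
        c.sg a (D (v : Fc) / v) := by
      change D (c.sg a v) / c.sg a v = _
      rw [hD.gal a _ ha, map_div₀]
    refine ⟨e, ?_⟩
    change OP P (D _ / _)
    rw [e]
    exact op_gal _ hv
  have hnd : ∀ b : Fin P.natDegree → k, b ≠ 0 → ¬ P ∣ pol b := fun b hb h =>
    hb ((dvd_pol hP b).mp h)
  let g : (Fin P.natDegree → k) × Fin n → HH hD := fun l =>
    if hb : l.1 = 0 then 1 else
      ⟨Units.map ((c.sg (pol l.1) : Fc ≃ₐ[k[X]] Fc) : Fc →* Fc) (fu l.2),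
        (hgal (pol l.1) (fu l.2) (hnd _ hb) (hf l.2).2).2⟩
  have hg : ∀ (b : Fin P.natDegree → k) (i : Fin n), b ≠ 0 → (g (b, i)).1 =
      Units.map ((c.sg (pol b) : Fc ≃ₐ[k[X]] Fc) : Fc →* Fc) (fu i) := by
    intro b i hb
    simp only [g]
    rw [dif_neg hb]
  let s : (Fin P.natDegree → k) × Fin n → F := fun l =>
    -(rho P.natDegree θ κ (pol l.1)) * u l.2
  have hs0 : ∀ i, s (0, i) = 0 := by
    intro i
    simp only [s]
    rw [pol_zero, r0, neg_zero, zero_mul]
  by_cases hx : ∑ l, s l ⊗ₜ[ℤ] (Multiplicative.toAdd (clH (g l))) = 0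
  · right
    obtain ⟨m, e, f', hf1, hf2⟩ := exact_lemma k F Fc p (HH hD) (tors p (Cl k Fc)) hV clH
      ((dlog hD).comp (HH hD).subtype) s g hx
    -- the projection of `Eh`
    have A1 : projL c θ κ Eh = ∑ l, s l ⊗ₜ[k] (Multiplicative.toAdd
        (((dlog hD).comp (HH hD).subtype) (g l))) := by
      rw [← proj_eq, proj, Fintype.sum_prod_type, ← Finset.sum_neg_distrib]
      apply Finset.sum_congr rfl
      intro b _
      by_cases hb : b = 0
      · subst hb
        rw [pol_zero, r0, zero_smul, neg_zero]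
        symm
        apply Finset.sum_eq_zero
        intro i _
        rw [hs0, TensorProduct.zero_tmul]
      · rw [hsum, map_sum, Finset.smul_sum, ← Finset.sum_neg_distrib]
        apply Finset.sum_congr rfl
        intro i _
        rw [sgT_tmul, TensorProduct.smul_tmul', ← TensorProduct.neg_tmul]
        have e1 : Multiplicative.toAdd (((dlog hD).comp (HH hD).subtype) (g (b, i))) =
            c.sg (pol b) (D (f i) / f i) := by
          change D ((g (b, i)).1 : Fc) / ((g (b, i)).1 : Fc) = _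
          rw [hg b i hb]
          exact (hgal (pol b) (fu i) (hnd _ hb) (hf i).2).1
        rw [e1]
        congr 1
        simp only [s, smul_eq_mul]
        ring
    have A2 : projL c θ κ Eh = Eh := by
      rw [← proj_eq, proj]
      have e1 : ∀ b : Fin P.natDegree → k, rho P.natDegree θ κ (pol b) • sgT c (pol b) Eh =
          (if b = 0 then (0 : F) else 1) • Eh := by
        intro b
        by_cases hb : b = 0
        · rw [if_pos hb, hb, pol_zero, r0, zero_smul, zero_smul]
        · rw [if_neg hb, heig _ (hnd b hb), smul_smul, r6 _ (hnd b hb)]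
      rw [Finset.sum_congr rfl fun b _ => e1 b, ← Finset.sum_smul]
      have e2 : ∑ b : Fin P.natDegree → k, (if b = 0 then (0 : F) else 1) = -1 := by
        have e3 : ∑ b : Fin P.natDegree → k, (if b = 0 then (0 : F) else 1) =
            ∑ b : Fin P.natDegree → k, (1 : F) - ∑ b : Fin P.natDegree → k,
              (if b = 0 then (1 : F) else 0) := by
          rw [← Finset.sum_sub_distrib]
          apply Finset.sum_congr rfl
          intro b _
          split_ifs <;> simp
        rw [e3, Finset.sum_ite_eq' Finset.univ (0 : Fin P.natDegree → k)]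
        simp [hq0, hd0]
      rw [e2, neg_one_smul, neg_neg]
    -- each term
    have A3 : ∀ j, ∃ t : F, projL c θ κ (1 ⊗ₜ[k] (Multiplicative.toAdd
        (((dlog hD).comp (HH hD).subtype) (f' j)))) = t • w := by
      intro j
      have hc : cl (f' j).1 = 0 := hf1 j
      obtain ⟨g', u', r, hu1, hu2, hfe⟩ := cl2 _ (f' j).2 hc
      obtain ⟨t1, ht1⟩ := hw (c.lam 1) (Or.inl rfl)
      obtain ⟨t2, ht2⟩ := hw (u' : Fc) (Or.inr ⟨u'.ne_zero, hu1, hu2⟩)
      rw [proj_eq] at ht1 ht2
      have hfu : (f' j).1 = g' ^ p * (Units.mk0 (c.lam 1) hlam) ^ r * u' := by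
        ext
        rw [hfe]
        push_cast
        rfl
      have hdl : Multiplicative.toAdd (((dlog hD).comp (HH hD).subtype) (f' j)) =
          r • (D (c.lam 1) / c.lam 1) + D (u' : Fc) / u' := by
        change Multiplicative.toAdd (dlog hD (f' j).1) = _
        have e9 : dlog hD (g' ^ p * (Units.mk0 (c.lam 1) hlam) ^ r * u') =
            dlog hD g' ^ p * dlog hD (Units.mk0 (c.lam 1) hlam) ^ r * dlog hD u' := by
          rw [map_mul, map_mul, map_pow, map_zpow]
        rw [hfu, e9, toAdd_mul, toAdd_mul, toAdd_pow, toAdd_zpow,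
          dlog_apply, dlog_apply, dlog_apply]
        rw [nsmul_eq_mul, hpF, zero_mul, zero_add]
        rfl
      refine ⟨r • t1 + t2, ?_⟩
      rw [hdl, TensorProduct.tmul_add, map_add, ht2, add_smul]
      congr 1
      rw [TensorProduct.tmul_smul, map_zsmul, ht1, smul_assoc]
    choose t ht using A3
    refine ⟨∑ j, e j * t j, ?_⟩
    have hEh : Eh = ∑ j, e j ⊗ₜ[k] (Multiplicative.toAdd
        (((dlog hD).comp (HH hD).subtype) (f' j))) := by
      rw [← hf2, ← A1, A2]
    calc Eh = projL c θ κ Eh := A2.symm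
      _ = projL c θ κ (∑ j, e j ⊗ₜ[k] (Multiplicative.toAdd
        (((dlog hD).comp (HH hD).subtype) (f' j)))) := by rw [← hEh]
      _ = ∑ j, (e j * t j) • w := by
        rw [map_sum]
        apply Finset.sum_congr rfl
        intro j _
        have e8 : e j ⊗ₜ[k] (Multiplicative.toAdd (((dlog hD).comp (HH hD).subtype) (f' j))) =
            e j • ((1 : F) ⊗ₜ[k] (Multiplicative.toAdd
              (((dlog hD).comp (HH hD).subtype) (f' j)))) := by
          rw [TensorProduct.smul_tmul', smul_eq_mul, mul_one]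
        rw [e8, map_smul, ht, smul_smul]
      _ = (∑ j, e j * t j) • w := Finset.sum_smul.symm
  · left
    refine ⟨_, hx, ?_⟩
    intro a ha
    let φ : (Fin P.natDegree → k) × Fin n ≃ (Fin P.natDegree → k) × Fin n :=
      (mmE hP hirr ha).prodCongr (Equiv.refl _)
    rw [map_sum, Finset.smul_sum, ← Equiv.sum_comp φ (fun l => (aeval θ a) ^ κ •
      (s l ⊗ₜ[ℤ] (Multiplicative.toAdd (clH (g l)))))]
    apply Finset.sum_congr rfl
    rintro ⟨b, i⟩ _
    have hφ : φ (b, i) = (mm P a b, i) := rfl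
    rw [hφ, LinearMap.lTensor_tmul]
    by_cases hb : b = 0
    · have h0 : mm P a (0 : Fin P.natDegree → k) = 0 := by
        apply (dvd_pol hP _).mp
        have := mm_dvd hP a (0 : Fin P.natDegree → k)
        rw [pol_zero, zero_mul, zero_sub, dvd_neg] at this
        exact this
      rw [hb, h0, hs0, TensorProduct.zero_tmul, TensorProduct.zero_tmul, smul_zero]
    · have hPb : ¬ P ∣ pol b := hnd b hb
      have hPab : ¬ P ∣ pol b * a := by
        intro h
        rcases hirr.prime.dvd_or_dvd h with h | h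
        · exact hPb h
        · exact ha h
      have hmd := mm_dvd hP a b
      have hmb : mm P a b ≠ 0 := by
        intro h
        rw [h, pol_zero, sub_zero] at hmd
        exact hPab hmd
      have e1 : torsMap p (clMap (c.sg a)) (Multiplicative.toAdd (clH (g (b, i)))) =
          Multiplicative.toAdd (clH (g (mm P a b, i))) := by
        change torsMap p (clMap (c.sg a)) (cl (g (b, i)).1) = cl (g (mm P a b, i)).1
        rw [hg b i hb, hg _ i hmb, ← cl3 a _ ha (hgal (pol b) (fu i) hPb (hf i).2).2]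
        congr 1
        ext
        change c.sg a (c.sg (pol b) (f i)) = c.sg (pol (mm P a b)) (f i)
        rw [← c.sg_mod _ _ hPab hmd, c.sg_mul _ _ hPb ha]
        rfl
      have e2 : s (b, i) = (aeval θ a) ^ κ * s (mm P a b, i) := by
        have h1 := r6 _ hPb
        have h2 := r6 _ (hnd _ hmb)
        have h3 : aeval θ (pol (mm P a b)) = aeval θ (pol b) * aeval θ a := by
          obtain ⟨v, hv⟩ := hmd
          have := congrArg (aeval θ) hv
          rw [map_sub, map_mul, map_mul, hθ, zero_mul] at this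
          exact (sub_eq_zero.mp this).symm
        rw [h3, mul_pow] at h2
        simp only [s]
        linear_combination (-(u i) * rho P.natDegree θ κ (pol b)) * (-h2) * 1 +
          (u i * (aeval θ a) ^ κ * rho P.natDegree θ κ (pol (mm P a b))) * (-h1)
      rw [AddMonoidHom.coe_toIntLinearMap, e1, e2, TensorProduct.smul_tmul', smul_eq_mul]

theorem tor : S_C3 → S_RHO → S_XH → S_UNI → S_CLM → S_TOR := by
  intro _ hRHO hXH hUNI hCLM k F Fc _ _ _ _ _ _ _ _ _ _ _ _ _ _ _ p _ _ P θ κ c Lam ι D hP hirr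
    hfr hθ hL hι hD hκ0 hκ1 hκ2 hex
  obtain ⟨cl, cl1, cl2, cl3⟩ := hCLM k F Fc p P c ι D hP hirr hfr hD
  obtain ⟨w, hw⟩ := hUNI k F Fc p P θ κ c Lam ι D hP hirr hθ hL hι hD hκ0 hκ1 hκ2
  obtain ⟨E, Einj, hE⟩ := hXH k F Fc p P θ κ c Lam ι D hP hirr hθ hL hι hD hκ0 hκ1 hκ2
  obtain ⟨-, r0, -, -, -, r6, -⟩ := hRHO k F P θ κ hP hirr hθ hκ0 hκ1 hκ2
  obtain ⟨h1, h2, hh1, hh2, hli⟩ := hex
  obtain ⟨heig1, n1, u1, f1, hf1, hs1⟩ := hE h1 hh1
  obtain ⟨heig2, n2, u2, f2, hf2, hs2⟩ := hE h2 hh2
  rcases key k F Fc p P θ κ c ι D hP hirr hθ hD r0 r6 cl cl1 cl2 cl3 w hw (E h1) heig1 n1 u1 f1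
    hf1 hs1 with h | ⟨t1, ht1⟩
  · exact h
  rcases key k F Fc p P θ κ c ι D hP hirr hθ hD r0 r6 cl cl1 cl2 cl3 w hw (E h2) heig2 n2 u2 f2
    hf2 hs2 with h | ⟨t2, ht2⟩
  · exact h
  exfalso
  have h0 : E (t2 • h1 + (-t1) • h2) = E 0 := by
    rw [map_add, map_smul, map_smul, ht1, ht2, map_zero, smul_smul, smul_smul, ← add_smul]
    have : t2 * t1 + -t1 * t2 = 0 := by ring
    rw [this, zero_smul]
  have h3 := Einj h0
  rw [LinearIndependent.pair_iff] at hli
  obtain ⟨-, h5⟩ := hli _ _ h3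
  have h6 : t1 = 0 := neg_eq_zero.mp h5
  have h7 : E h1 = E 0 := by rw [ht1, h6, zero_smul, map_zero]
  have h8 := Einj h7
  have h9 := hli 1 0 (by rw [h8, smul_zero, zero_smul, add_zero])
  exact one_ne_zero h9.1

end Pool.Agent.W304.GK.TOR
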